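import Mathlib
import Pool.Agent.ERG.Final

/-!
# PONE-WL is `∃ℝ`-hard

Deciding whether a win-lose game with three players, given by its payoff tables, has a Pareto
optimal Nash equilibrium is `∃ℝ`-hard: every language that reduces in polynomial time to the
existential theory of the reals reduces in polynomial time to PONE-WL. All notions are defined in
`Pool/Agent/ERG/Defs.lean`.
-/

namespace Pool.Agent.Results.MP_d68d66_lc.PoneWLHard

open Pool.Agent.ERG

/-- PONE-WL is `∃ℝ`-hard under polynomial-time many-one reductions. -/
theorem result : ∀ A : Set (List Bool), A ∈ ExistsReal → PolyReduces A PONEWL :=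
  ponewl_hard

end Pool.Agent.Results.MP_d68d66_lc.PoneWLHard
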